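import Pool.Agent.Helper10.TW.Defs
import Pool.Agent.Helper94.SI.Level
import Pool.Agent.Helper36.PX.B2E
import Pool.Agent.Helper10.SQ.B1

/-! Project TW, leaf E: palindromes with given first digits and a large square divisor. -/

set_option autoImplicit false

namespace Pool.Agent.Helper10.TW

open Finset Filter Pool.Agent.Helper10 Pool.Agent.Helper10.P5 Pool.Agent.Helper10.P4
  Pool.Agent.Helper10.SQ Pool.Agent.Helper15.SI

open Classical in
theorem bigW : ∃ c : ℝ, 0 < c ∧ ∃ n0 : ℕ, ∀ n : ℕ, n0 ≤ n → ∀ k w : ℕ, 1 ≤ k → 20000 * k ≤ n →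
    10 ^ (k - 1) ≤ w → w < 10 ^ k →
    (((PW n k w).filter (bsq n)).card : ℝ) ≤ 10 ^ (n - k) * Real.exp (-(c * √(n : ℝ))) := by
  obtain ⟨c, hc, m0, hS⟩ := level_S_all (1 / 100) (by norm_num)
  obtain ⟨n1, hg1⟩ := Pool.Agent.Helper36.PX.b2_growthE 0 60 (1 / 20) (c / 2) (by norm_num)
    (by norm_num)
  obtain ⟨n2, hg2⟩ := Pool.Agent.Helper36.PX.b2_growthE 0 3 (1 / 10) (c / 2) (by norm_num)
    (by norm_num)
  obtain ⟨n3, hn3⟩ := exists_nat_gt ((4 * Real.log 3 / c) ^ 2)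
  refine ⟨c / 2, by positivity, 2 * m0 + n1 + n2 + n3 + 400, fun n hn k w hk1 hk hw1 hw => ?_⟩
  have hkn : k ≤ n := by omega
  obtain ⟨m, hm⟩ : ∃ m, m = n - k := ⟨_, rfl⟩
  rw [← hm]
  obtain ⟨t, ht⟩ : ∃ t, t = m - m / 50 := ⟨_, rfl⟩
  have hn400 : (400 : ℝ) ≤ n := by exact_mod_cast (by omega : 400 ≤ n)
  have hn0 : (0 : ℝ) < n := by linarith
  -- the residues
  have hb : ∀ s : ℕ, ∃ b : ℕ, s.Coprime 10 →
      ((PW n k w).filter (fun N => s ^ 2 ∣ N)).card = sc (n - k) (s ^ 2) b := by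
    intro s
    by_cases h : s.Coprime 10
    · obtain ⟨b, hb⟩ := pw_count (fun l N hl => isPalD_iff l N hl)
        (fun l k w hw => sy_prefix l k w hw) n k w hk1 hkn hw1 hw (s ^ 2) 0
        (Nat.Coprime.pow_left 2 h)
      refine ⟨b, fun _ => ?_⟩
      rw [← hb]
      congr 1
      ext N
      rw [mem_filter, mem_filter, Nat.modEq_zero_iff_dvd]
    · exact ⟨0, fun h1 => absurd h1 h⟩
  choose b hb using hb
  -- the cover
  set S := (Icc 1 (10 ^ t)).filter (fun s : ℕ => s.Coprime 10 ∧ 10 ^ (n / 10) ≤ s) with hSdef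
  have hsub : (PW n k w).filter (bsq n) ⊆
      (S.biUnion (fun s => (PW n k w).filter (fun N => s ^ 2 ∣ N))) ∪
      (Pal n).filter (fun P => ∃ d : ℕ, 10 ^ (n - (n - t)) ≤ d ∧ d ^ 2 ∣ P) := by
    intro P hP
    rw [mem_filter] at hP
    obtain ⟨hP1, d, hd1, hd2, hd3⟩ := hP
    rw [mem_union]
    by_cases h : d ≤ 10 ^ t
    · left
      rw [mem_biUnion]
      refine ⟨d, ?_, ?_⟩
      · rw [hSdef, mem_filter, mem_Icc]
        have : 0 < 10 ^ (n / 10) := by positivity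
        exact ⟨⟨by omega, h⟩, hd2, hd1⟩
      · rw [mem_filter]
        exact ⟨hP1, hd3⟩
    · right
      rw [mem_filter]
      refine ⟨?_, d, ?_, hd3⟩
      · unfold PW at hP1
        exact (mem_filter.1 hP1).1
      · rw [show n - (n - t) = t by omega]
        omega
  have hcard : (((PW n k w).filter (bsq n)).card : ℝ) ≤
      ∑ s ∈ S, ((sc m (s ^ 2) (b s) : ℕ) : ℝ) +
        (((Pal n).filter (fun P => ∃ d : ℕ, 10 ^ (n - (n - t)) ≤ d ∧ d ^ 2 ∣ P)).card : ℝ) := by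
    have h5 := (card_le_card hsub).trans (card_union_le _ _)
    have h6 := card_biUnion_le (s := S) (t := fun s => (PW n k w).filter (fun N => s ^ 2 ∣ N))
    have h7 := h5.trans (Nat.add_le_add_right h6 _)
    have h8 : ∑ s ∈ S, ((PW n k w).filter (fun N => s ^ 2 ∣ N)).card =
        ∑ s ∈ S, sc m (s ^ 2) (b s) := by
      apply Finset.sum_congr rfl
      intro s hs
      rw [hSdef, mem_filter] at hs
      rw [hb s hs.2.1, hm]
    rw [h8] at h7
    exact_mod_cast h7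
  -- part one
  have h10m : (0 : ℝ) < (10 : ℝ) ^ m := by positivity
  have p1 : ∑ s ∈ S, ((sc m (s ^ 2) (b s) : ℕ) : ℝ) ≤
      ES m (10 ^ t) b + 20 * 10 ^ m / 10 ^ (n / 10) := by
    have a1 : ∀ s ∈ S, ((sc m (s ^ 2) (b s) : ℕ) : ℝ) ≤
        |((sc m (s ^ 2) (b s) : ℕ) : ℝ) - 10 ^ (m + 1) / ((s : ℝ) ^ 2)| +
          10 / 9 * (9 * (10 : ℝ) ^ m / ((s : ℝ) ^ 2)) := by
      intro s _
      have e := le_abs_self (((sc m (s ^ 2) (b s) : ℕ) : ℝ) - 10 ^ (m + 1) / ((s : ℝ) ^ 2))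
      have e2 : 10 / 9 * (9 * (10 : ℝ) ^ m / ((s : ℝ) ^ 2)) = 10 ^ (m + 1) / ((s : ℝ) ^ 2) := by
        rw [pow_succ]
        ring
      rw [e2]
      linarith
    refine (Finset.sum_le_sum a1).trans ?_
    rw [Finset.sum_add_distrib, ← Finset.mul_sum]
    have a2 : ∑ s ∈ S, |((sc m (s ^ 2) (b s) : ℕ) : ℝ) - 10 ^ (m + 1) / ((s : ℝ) ^ 2)| ≤
        ES m (10 ^ t) b := by
      unfold ES
      apply Finset.sum_le_sum_of_subset_of_nonneg
      · intro s hs
        rw [hSdef, mem_filter] at hs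
        unfold Mo
        rw [mem_filter]
        exact ⟨hs.1, hs.2.1⟩
      · intro s _ _
        exact abs_nonneg _
    have a3 := b2_tail m (n / 10) (10 ^ t) S (fun d hd => by
      rw [hSdef, mem_filter, mem_Icc] at hd
      exact ⟨hd.2.2, hd.1.2⟩)
    have a4 : 10 / 9 * (18 * (10 : ℝ) ^ m / 10 ^ (n / 10)) = 20 * 10 ^ m / 10 ^ (n / 10) := by
      ring
    linarith
  -- the level
  have hmR : (m : ℝ) = n - k := by rw [hm, Nat.cast_sub hkn]
  have hkR : (20000 : ℝ) * k ≤ n := by exact_mod_cast hk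
  have hlev : ES m (10 ^ t) b ≤ (10 : ℝ) ^ m * Real.exp (-(c * Real.sqrt m)) := by
    apply hS m (by omega)
    push_cast
    rw [← Real.rpow_natCast]
    apply Real.rpow_le_rpow_of_exponent_le (by norm_num)
    have e1 : 100 * t ≤ 99 * m := by omega
    have e2 : (100 : ℝ) * t ≤ 99 * m := by exact_mod_cast e1
    linarith
  -- constants
  set X := √(n : ℝ) with hX
  have hX0 : 0 ≤ X := Real.sqrt_nonneg _
  set E : ℝ := Real.exp (-(c / 2 * X)) with hE
  have hE0 : 0 < E := Real.exp_pos _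
  have hEi : E * Real.exp (c / 2 * X) = 1 := by
    rw [hE, ← Real.exp_add]
    simp
  have r1 : (10 : ℝ) ^ m * Real.exp (-(c * Real.sqrt m)) ≤ (10 : ℝ) ^ m * (E / 3) := by
    apply mul_le_mul_of_nonneg_left _ h10m.le
    have e0 : 3 / 4 * X ≤ Real.sqrt m := by
      apply Real.le_sqrt_of_sq_le
      rw [mul_pow, hX, Real.sq_sqrt hn0.le, hmR]
      linarith
    have e3 : 4 * Real.log 3 / c ≤ X := by
      apply Real.le_sqrt_of_sq_le
      have : (n3 : ℝ) ≤ n := by exact_mod_cast (by omega : n3 ≤ n)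
      linarith
    rw [div_le_iff₀ hc] at e3
    have e4 : E / 3 = Real.exp (-(c / 2 * X) - Real.log 3) := by
      rw [Real.exp_sub, Real.exp_log (by norm_num)]
    rw [e4]
    apply Real.exp_le_exp.2
    have e5 := mul_le_mul_of_nonneg_left e0 hc.le
    linarith
  have r2 : 20 * (10 : ℝ) ^ m / 10 ^ (n / 10) ≤ (10 : ℝ) ^ m * (E / 3) := by
    have g1 := hg1 n (by omega)
    have g2 : (10 : ℝ) ^ (1 / 20 * (n : ℝ)) ≤ 10 ^ (n / 10) := by
      rw [← Real.rpow_natCast]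
      apply Real.rpow_le_rpow_of_exponent_le (by norm_num)
      have e1 : n ≤ 20 * (n / 10) := by omega
      have e2 : (n : ℝ) ≤ 20 * ((n / 10 : ℕ) : ℝ) := by exact_mod_cast e1
      linarith
    have g3 : 60 * Real.exp (c / 2 * X) ≤ 10 ^ (n / 10) := by
      rw [pow_zero, mul_one] at g1
      linarith
    rw [div_le_iff₀ (by positivity)]
    have g4 : 60 * Real.exp (c / 2 * X) * E ≤ 10 ^ (n / 10) * E := mul_le_mul_of_nonneg_right g3 hE0.le
    have g5 : 60 * Real.exp (c / 2 * X) * E = 60 := by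
      rw [mul_assoc, mul_comm _ E, hEi, mul_one]
    rw [g5] at g4
    have g6 := mul_le_mul_of_nonneg_left g4 h10m.le
    linarith
  have r3 : (((Pal n).filter (fun P => ∃ d : ℕ, 10 ^ (n - (n - t)) ≤ d ∧ d ^ 2 ∣ P)).card : ℝ) ≤
      (10 : ℝ) ^ m * (E / 3) := by
    have h1 := sqB1 n (n - t) (Nat.sub_le _ _)
    have h2 : (((Pal n).filter (fun P => ∃ d : ℕ, 10 ^ (n - (n - t)) ≤ d ∧ d ^ 2 ∣ P)).card : ℝ) ≤
        (10 : ℝ) ^ (2 * (n - t) + 1 + (n / 2 + 1)) := by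
      rw [pow_add]
      exact_mod_cast h1
    have g1 := hg2 n (by omega)
    rw [pow_zero, mul_one] at g1
    have g2 : (10 : ℝ) ^ (1 / 10 * (n : ℝ)) * (10 : ℝ) ^ (2 * (n - t) + 1 + (n / 2 + 1)) ≤ 10 ^ m := by
      rw [← Real.rpow_natCast 10 (2 * (n - t) + 1 + (n / 2 + 1)), ← Real.rpow_natCast 10 m,
        ← Real.rpow_add (by norm_num)]
      apply Real.rpow_le_rpow_of_exponent_le (by norm_num)
      have e1 : n + 10 * (2 * (n - t) + 1 + (n / 2 + 1)) ≤ 10 * m := by omega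
      have e2 : (n : ℝ) + 10 * ((2 * (n - t) + 1 + (n / 2 + 1) : ℕ) : ℝ) ≤ 10 * m := by
        exact_mod_cast e1
      linarith
    have g3 : (0 : ℝ) < (10 : ℝ) ^ (2 * (n - t) + 1 + (n / 2 + 1)) := by positivity
    have g4 := mul_le_mul_of_nonneg_right g1 g3.le
    have g5 : 3 * Real.exp (c / 2 * X) * (10 : ℝ) ^ (2 * (n - t) + 1 + (n / 2 + 1)) ≤ 10 ^ m := by
      linarith
    have g6 := mul_le_mul_of_nonneg_right g5 hE0.le
    have g7 : 3 * Real.exp (c / 2 * X) * (10 : ℝ) ^ (2 * (n - t) + 1 + (n / 2 + 1)) * E =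
        3 * (10 : ℝ) ^ (2 * (n - t) + 1 + (n / 2 + 1)) := by
      calc 3 * Real.exp (c / 2 * X) * (10 : ℝ) ^ (2 * (n - t) + 1 + (n / 2 + 1)) * E =
          3 * (10 : ℝ) ^ (2 * (n - t) + 1 + (n / 2 + 1)) * (E * Real.exp (c / 2 * X)) := by ring
        _ = _ := by rw [hEi, mul_one]
    rw [g7] at g6
    linarith
  linarith

end Pool.Agent.Helper10.TW
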